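import Mathlib

set_option autoImplicit false

namespace Pool.Agent.Results.MP_3faef8_co.Union

open Classical in
/-- The sum of the labels at the vertex `v`. -/
noncomputable def vsum {V : Type} [Fintype V] (G : SimpleGraph V) (l : Sym2 V → ℕ) (v : V) : ℕ :=
  ∑ u : V, if G.Adj v u then l s(v, u) else 0

/-- The number of edges with label `a`. -/
noncomputable def nb {V : Type} (G : SimpleGraph V) (l : Sym2 V → ℕ) (a : ℕ) : ℕ :=
  {e | e ∈ G.edgeSet ∧ l e = a}.ncard

/-- `l` is an equitable proper `k`-labelling of `G`: the edges have labels in `{1, …, k}`, adjacent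
vertices have different sums, and the numbers of occurrences of any two labels that are used
differ by at most one. -/
def IsEquitableProper {V : Type} [Fintype V] (G : SimpleGraph V) (k : ℕ) (l : Sym2 V → ℕ) :
    Prop :=
  (∀ e ∈ G.edgeSet, 1 ≤ l e ∧ l e ≤ k) ∧
  (∀ u v, G.Adj u v → vsum G l u ≠ vsum G l v) ∧
  ∀ a b, 0 < nb G l a → 0 < nb G l b → nb G l a ≤ nb G l b + 1

/-- `G` is nice: no connected component is a single edge. -/
def Nice {V : Type} (G : SimpleGraph V) : Prop :=
  ∀ u v, G.Adj u v → ∃ w, w ≠ u ∧ w ≠ v ∧ (G.Adj u w ∨ G.Adj v w)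

/-- The disjoint union of a triangle (on `0, 1, 2`) and a complete graph on the four vertices
`3, 4, 5, 6`. -/
def G : SimpleGraph (Fin 7) where
  Adj u v := u ≠ v ∧ (u.val < 3 ↔ v.val < 3)
  symm := ⟨by decide⟩
  loopless := ⟨by decide⟩

instance : DecidableRel G.Adj :=
  fun u v => inferInstanceAs (Decidable (u ≠ v ∧ (u.val < 3 ↔ v.val < 3)))

theorem G_nice : Nice G := by
  unfold Nice
  decide +kernel

theorem G_not_K4 : ¬ Nonempty (G ≃g (⊤ : SimpleGraph (Fin 4))) := by
  rintro ⟨e⟩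
  have := Fintype.card_congr e.toEquiv
  simp at this

/-- The list of the edge labels. -/
def labels (a b c d e f g h i : ℕ) : List ℕ := [a, b, c, d, e, f, g, h, i]

/-- The properties of the labels of an equitable proper labelling, with labels shifted to
`0, 1, 2`. -/
def good (a b c d e f g h i : ℕ) : Bool :=
  !(Nat.beq a b) && !(Nat.beq a c) && !(Nat.beq b c) &&
  !(Nat.beq (d + e + f) (d + g + h)) && !(Nat.beq (d + e + f) (e + g + i)) &&
  !(Nat.beq (d + e + f) (f + h + i)) && !(Nat.beq (d + g + h) (e + g + i)) &&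
  !(Nat.beq (d + g + h) (f + h + i)) && !(Nat.beq (e + g + i) (f + h + i)) &&
  ([0, 1, 2].all fun x => [0, 1, 2].all fun y =>
    Nat.beq ((labels a b c d e f g h i).count x) 0 ||
    Nat.beq ((labels a b c d e f g h i).count y) 0 ||
    Nat.ble ((labels a b c d e f g h i).count x) ((labels a b c d e f g h i).count y + 1))

set_option maxRecDepth 100000 in
theorem core : ∀ a b c d e f g h i : Fin 3,
    good a.val b.val c.val d.val e.val f.val g.val h.val i.val = false := by
  decide +kernel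

/-- The edges of `G`. -/
def Es : Finset (Sym2 (Fin 7)) :=
  {s(0, 1), s(0, 2), s(1, 2), s(3, 4), s(3, 5), s(3, 6), s(4, 5), s(4, 6), s(5, 6)}

theorem mem_Es (e : Sym2 (Fin 7)) : e ∈ G.edgeSet ↔ e ∈ Es := by
  induction e using Sym2.ind with
  | _ u v =>
    rw [SimpleGraph.mem_edgeSet]
    revert u v
    decide +kernel

theorem nb_eq (l : Sym2 (Fin 7) → ℕ) (a : ℕ) : nb G l a =
    (labels (l s(0, 1)) (l s(0, 2)) (l s(1, 2)) (l s(3, 4)) (l s(3, 5)) (l s(3, 6)) (l s(4, 5))
      (l s(4, 6)) (l s(5, 6))).count a := by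
  unfold nb
  have h : {e | e ∈ G.edgeSet ∧ l e = a} = ((Es.filter (fun e => l e = a) : Finset _) :
      Set (Sym2 (Fin 7))) := by
    ext e
    simp [mem_Es]
  rw [h, Set.ncard_coe_finset, Finset.card_filter, Es]
  rw [Finset.sum_insert (by decide +kernel), Finset.sum_insert (by decide +kernel),
    Finset.sum_insert (by decide +kernel), Finset.sum_insert (by decide +kernel),
    Finset.sum_insert (by decide +kernel), Finset.sum_insert (by decide +kernel),
    Finset.sum_insert (by decide +kernel), Finset.sum_insert (by decide +kernel),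
    Finset.sum_singleton]
  simp only [labels, List.count_cons, List.count_nil, beq_iff_eq]
  omega

theorem no_labelling : ¬ ∃ l, IsEquitableProper G 3 l := by
  rintro ⟨l, h1, h2, h3⟩
  have hr : ∀ e ∈ Es, ∃ x : Fin 3, l e = x.val + 1 := by
    intro e he
    obtain ⟨h4, h5⟩ := h1 e ((mem_Es e).2 he)
    exact ⟨⟨l e - 1, by omega⟩, by simp; omega⟩
  obtain ⟨a, ha⟩ := hr s(0, 1) (by decide +kernel)
  obtain ⟨b, hb⟩ := hr s(0, 2) (by decide +kernel)
  obtain ⟨c, hc⟩ := hr s(1, 2) (by decide +kernel)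
  obtain ⟨d, hd⟩ := hr s(3, 4) (by decide +kernel)
  obtain ⟨e, he⟩ := hr s(3, 5) (by decide +kernel)
  obtain ⟨f, hf⟩ := hr s(3, 6) (by decide +kernel)
  obtain ⟨g, hg⟩ := hr s(4, 5) (by decide +kernel)
  obtain ⟨h, hh⟩ := hr s(4, 6) (by decide +kernel)
  obtain ⟨i, hi⟩ := hr s(5, 6) (by decide +kernel)
  have s0 : vsum G l 0 = a.val + 1 + (b.val + 1) := by
    unfold vsum
    rw [← ha, ← hb]
    simp [Fin.sum_univ_succ, G]
    try rfl
  have s1 : vsum G l 1 = a.val + 1 + (c.val + 1) := by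
    unfold vsum
    rw [← ha, ← hc, Sym2.eq_swap (a := 0) (b := 1)]
    simp [Fin.sum_univ_succ, G]
    try rfl
  have s2 : vsum G l 2 = b.val + 1 + (c.val + 1) := by
    unfold vsum
    rw [← hb, ← hc, Sym2.eq_swap (a := 0) (b := 2), Sym2.eq_swap (a := 1) (b := 2)]
    simp [Fin.sum_univ_succ, G]
    try rfl
  have w34 : s((4 : Fin 7), 3) = s(3, 4) := Sym2.eq_swap
  have w35 : s((5 : Fin 7), 3) = s(3, 5) := Sym2.eq_swap
  have w36 : s((6 : Fin 7), 3) = s(3, 6) := Sym2.eq_swap
  have w45 : s((5 : Fin 7), 4) = s(4, 5) := Sym2.eq_swap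
  have w46 : s((6 : Fin 7), 4) = s(4, 6) := Sym2.eq_swap
  have w56 : s((6 : Fin 7), 5) = s(5, 6) := Sym2.eq_swap
  have s3 : vsum G l 3 = d.val + 1 + (e.val + 1) + (f.val + 1) := by
    unfold vsum
    rw [← hd, ← he, ← hf, Fin.sum_univ_seven]
    simp [G]
  have s4 : vsum G l 4 = d.val + 1 + (g.val + 1) + (h.val + 1) := by
    unfold vsum
    rw [← hd, ← hg, ← hh, Fin.sum_univ_seven, w34]
    simp [G]
  have s5 : vsum G l 5 = e.val + 1 + (g.val + 1) + (i.val + 1) := by
    unfold vsum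
    rw [← he, ← hg, ← hi, Fin.sum_univ_seven, w35, w45]
    simp [G]
  have s6 : vsum G l 6 = f.val + 1 + (h.val + 1) + (i.val + 1) := by
    unfold vsum
    rw [← hf, ← hh, ← hi, Fin.sum_univ_seven, w36, w46, w56]
    simp [G]
  have t01 := h2 0 1 (by decide +kernel)
  have t02 := h2 0 2 (by decide +kernel)
  have t12 := h2 1 2 (by decide +kernel)
  have t34 := h2 3 4 (by decide +kernel)
  have t35 := h2 3 5 (by decide +kernel)
  have t36 := h2 3 6 (by decide +kernel)
  have t45 := h2 4 5 (by decide +kernel)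
  have t46 := h2 4 6 (by decide +kernel)
  have t56 := h2 5 6 (by decide +kernel)
  rw [s0, s1] at t01
  rw [s0, s2] at t02
  rw [s1, s2] at t12
  rw [s3, s4] at t34
  rw [s3, s5] at t35
  rw [s3, s6] at t36
  rw [s4, s5] at t45
  rw [s4, s6] at t46
  rw [s5, s6] at t56
  have hcount : ∀ x, nb G l (x + 1) =
      (labels a.val b.val c.val d.val e.val f.val g.val h.val i.val).count x := by
    intro x
    rw [nb_eq, ha, hb, hc, hd, he, hf, hg, hh, hi]
    simp only [labels, List.count_cons, List.count_nil, beq_iff_eq, Nat.add_right_cancel_iff]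
  have hbeq : ∀ m n : ℕ, m ≠ n → (!(Nat.beq m n)) = true := by
    intro m n hmn
    rw [Bool.not_eq_true', ← Bool.not_eq_true]
    intro h0
    exact hmn (Nat.eq_of_beq_eq_true h0)
  have hgood : good a.val b.val c.val d.val e.val f.val g.val h.val i.val = true := by
    unfold good
    simp only [Bool.and_eq_true]
    refine ⟨⟨⟨⟨⟨⟨⟨⟨⟨hbeq _ _ ?_, hbeq _ _ ?_⟩, hbeq _ _ ?_⟩, hbeq _ _ ?_⟩, hbeq _ _ ?_⟩,
      hbeq _ _ ?_⟩, hbeq _ _ ?_⟩, hbeq _ _ ?_⟩, hbeq _ _ ?_⟩, ?_⟩
    · omega
    · omega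
    · omega
    · omega
    · omega
    · omega
    · omega
    · omega
    · omega
    · rw [List.all_eq_true]
      intro x _
      rw [List.all_eq_true]
      intro y _
      rw [Bool.or_eq_true, Bool.or_eq_true]
      by_cases hx : nb G l (x + 1) = 0
      · left; left
        rw [← hcount, hx]
        rfl
      · by_cases hy : nb G l (y + 1) = 0
        · left; right
          rw [← hcount, hy]
          rfl
        · right
          have := h3 (x + 1) (y + 1) (Nat.pos_of_ne_zero hx) (Nat.pos_of_ne_zero hy)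
          rw [hcount, hcount] at this
          exact Nat.ble_eq ▸ this
  rw [core] at hgood
  exact absurd hgood (by simp)

/-- Disproof of Q1: the disjoint union of `K₃` and `K₄` is a nice graph other than `K₄` without an
equitable proper `3`-labelling. -/
theorem result :
    (Nice G ∧ ¬ Nonempty (G ≃g (⊤ : SimpleGraph (Fin 4))) ∧ ¬ ∃ l, IsEquitableProper G 3 l) ∧
    ¬ ∀ (V : Type) [Fintype V] (G : SimpleGraph V), Nice G →
        ¬ Nonempty (G ≃g (⊤ : SimpleGraph (Fin 4))) →
        ∃ k, 1 ≤ k ∧ k ≤ 3 ∧ ∃ l, IsEquitableProper G k l := by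
  refine ⟨⟨G_nice, G_not_K4, no_labelling⟩, fun h => ?_⟩
  obtain ⟨k, _, hk, l, h1, h2, h3⟩ := h (Fin 7) G G_nice G_not_K4
  exact no_labelling ⟨l, fun e he => ⟨(h1 e he).1, (h1 e he).2.trans hk⟩, h2, h3⟩

end Pool.Agent.Results.MP_3faef8_co.Union
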